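import Pool.Agent.H107.MetricPi

set_option autoImplicit false

/-! Almost all points of a finite-dimensional real space are approximated by only finitely many
members of a thin family. -/

namespace Pool.Agent.H2N

open Filter Topology MeasureTheory Set Module
open scoped ENNReal NNReal

/-- a set of dimension less than `dim V` in a finite-dimensional space `V` is a null set -/
theorem null_of_dimH_lt {V : Type*} [NormedAddCommGroup V] [NormedSpace ℝ V] [FiniteDimensional ℝ V]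
    [MeasurableSpace V] [BorelSpace V] (μ : Measure V) [μ.IsAddHaarMeasure] {E : Set V}
    (h : dimH E < (finrank ℝ V : ℝ≥0∞)) : μ E = 0 := by
  have h0 : (μH[(finrank ℝ V : ℝ)] : Measure V) E = 0 := by
    have h1 : (((finrank ℝ V : ℕ) : ℝ≥0) : ℝ) = (finrank ℝ V : ℝ) := by simp
    rw [← h1]
    refine hausdorffMeasure_of_dimH_lt ?_
    simpa using h
  exact Measure.absolutelyContinuous_isAddHaarMeasure μ (μH[(finrank ℝ V : ℝ)]) h0

/-- countably many families of exponent `s`: near almost every point of a space of dimension `n`, to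
the precision `h ^ (-σ)`, `σ > s / n` -/
theorem ae_family_space {V : Type*} [NormedAddCommGroup V] [NormedSpace ℝ V] [FiniteDimensional ℝ V]
    [MeasurableSpace V] [BorelSpace V] (μ : Measure V) [μ.IsAddHaarMeasure]
    (hV : 0 < finrank ℝ V) {P : Type*} (φ : P → V) (h : P → ℝ)
    (h1 : ∀ t, 1 ≤ h t) {s : ℝ} (hs : 0 ≤ s) {J : Type*} [Countable J] (S : J → Set P)
    (hC : ∀ j : J, ∀ ε : ℝ, 0 < ε → ∃ C : ℝ, ∀ X : ℝ, 1 ≤ X →
      {t | t ∈ S j ∧ h t ≤ X}.Finite ∧ ({t | t ∈ S j ∧ h t ≤ X}.ncard : ℝ) ≤ C * X ^ (s + ε)) :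
    ∀ᵐ x ∂μ, ∀ σ : ℝ, s / finrank ℝ V < σ → ∀ j : J,
      {t | t ∈ S j ∧ dist (φ t) x ≤ (h t) ^ (-σ)}.Finite := by
  have hn : (0 : ℝ) < finrank ℝ V := by exact_mod_cast hV
  have hpos : ∀ k : ℕ, 0 < s / finrank ℝ V + 1 / ((k : ℝ) + 1) := fun k => by positivity
  have hall := fun k : ℕ => Pool.Agent.H107.ME.dim_family φ h h1 hs (hpos k) S hC
  choose E hE1 hE2 using hall
  have hnull : ∀ k, μ (E k) = 0 := by
    intro k
    refine null_of_dimH_lt μ ((hE1 k).trans_lt ?_)
    have g1 : s / (s / finrank ℝ V + 1 / ((k : ℝ) + 1)) < finrank ℝ V := by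
      rw [div_lt_iff₀ (hpos k), mul_add, mul_div_cancel₀ _ hn.ne']
      have : (0 : ℝ) < (finrank ℝ V : ℝ) * (1 / ((k : ℝ) + 1)) := by positivity
      linarith
    have g2 : ENNReal.ofReal (s / (s / finrank ℝ V + 1 / ((k : ℝ) + 1))) <
        ENNReal.ofReal (finrank ℝ V : ℝ) := (ENNReal.ofReal_lt_ofReal_iff hn).2 g1
    simpa using g2
  have hae : ∀ᵐ x ∂μ, ∀ k, x ∉ E k := by
    rw [ae_all_iff]
    intro k
    exact compl_mem_ae_iff.2 (hnull k)
  filter_upwards [hae] with x hx σ hσ j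
  obtain ⟨k, hk⟩ := exists_nat_one_div_lt (sub_pos.2 hσ)
  refine (hE2 k x (hx k) j).subset ?_
  rintro t ⟨g1, g2⟩
  refine ⟨g1, g2.trans ?_⟩
  exact Real.rpow_le_rpow_of_exponent_le (h1 t) (by linarith)

end Pool.Agent.H2N
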